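import Pool.Agent.helper34.AC.Spec3

/-!
# Module BMO of project ac: (MP_e0bd72_co)
-/

set_option autoImplicit false

open Filter Topology

namespace Pool.Agent.helper34.AC

theorem BMO (hOMF : OMF_stmt) (hASY : ASY_stmt) : BMO_stmt := by
  obtain ⟨hom, -, -, -, -, -⟩ := hOMF
  obtain ⟨M, hM⟩ := hASY (1 / 2) (by norm_num)
  refine ⟨M, ?_⟩
  have hstep : ∀ j : ℕ, M ≤ j → Bf j ≤ Bf (j + 1) := by
    intro j hj
    obtain ⟨-, -, -, h4, h5, -, -, -⟩ := hM j hj
    obtain ⟨-, -, -, h4', h5', h6', -, h8'⟩ := hM (j + 1) (by omega)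
    obtain ⟨h0, hmono, hdiff⟩ := hom j
    have hg : 2 ≤ gb j := by
      have h1 : (1 : ℝ) ≤ (1 + om j) ^ 8 := one_le_pow₀ (by linarith)
      linarith
    have hg' : 0 < gb (j + 1) := by
      have h0' := (hom (j + 1)).1
      have h1 : (1 : ℝ) ≤ (1 + om (j + 1)) ^ 8 := one_le_pow₀ (by linarith)
      linarith
    set X := xx (j + 1) with hX
    have hXe : X = gb (j + 1) - gb j := by
      rw [hX]
      unfold xx
      rw [Nat.add_sub_cancel]
    have h1 : X / 2 ≤ 1 - om (j + 1) * X := by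
      have := (abs_le.1 h6').1
      linarith
    have h2 : om j * X ≤ om (j + 1) * X := mul_le_mul_of_nonneg_right hmono h8'.le
    have h3 : 4 / 5 * X / gb j ≤ X / 2 := by
      rw [div_le_div_iff₀ (by linarith) (by norm_num)]
      nlinarith
    have h7 : (4 / 5 * X / gb j) / gb (j + 1) ≤ (1 - om j * X) / gb (j + 1) :=
      div_le_div_of_nonneg_right (by linarith) hg'.le
    have h9 : (4 / 5 * X / gb j) / gb (j + 1) = 4 / 5 / gb j - 4 / 5 / gb (j + 1) := by
      have hgj : gb j ≠ 0 := by linarith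
      have hgj' : gb (j + 1) ≠ 0 := hg'.ne'
      rw [hXe]
      field_simp
    unfold Bf
    linarith
  intro i j hi hij
  induction j, hij using Nat.le_induction with
  | base => exact le_rfl
  | succ k hk ih => exact ih.trans (hstep k (hi.trans hk))

end Pool.Agent.helper34.AC
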