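import Pool.Agent.helper34.AC.Spec

/-!
# Module POS of project ac: (MP_e0bd72_co)
-/

set_option autoImplicit false

namespace Pool.Agent.helper34.AC

theorem POS_mem {V : Type} (G : SimpleGraph V) (U : Finset V) (P : Finset (Finset V)) :
    P ∈ col G U ↔ IsCol G U P := by
  classical
  unfold col
  rw [Finset.mem_filter, Finset.mem_powerset]
  refine ⟨fun h => h.2, fun h => ⟨fun S hS => ?_, h⟩⟩
  rw [Finset.mem_powerset]
  exact (h.1 S hS).2.1

theorem POS_singletons {V : Type} [DecidableEq V] (G : SimpleGraph V) (U : Finset V) :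
    IsCol G U (U.image fun v => ({v} : Finset V)) := by
  refine ⟨fun S hS => ?_, fun v hv => ?_⟩
  · obtain ⟨v, hv, rfl⟩ := Finset.mem_image.1 hS
    refine ⟨Finset.singleton_nonempty v, Finset.singleton_subset_iff.2 hv, ?_⟩
    intro x hx y hy
    rw [Finset.mem_singleton] at hx hy
    rw [hx, hy]
    exact G.loopless.irrefl v
  · refine ⟨{v}, ⟨Finset.mem_image_of_mem _ hv, Finset.mem_singleton_self v⟩, ?_⟩
    rintro S ⟨hS, hvS⟩
    obtain ⟨u, _, rfl⟩ := Finset.mem_image.1 hS
    rw [Finset.mem_singleton] at hvS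
    rw [hvS]

theorem POS_card {V : Type} (G : SimpleGraph V) (U : Finset V) (P : Finset (Finset V))
    (hP : IsCol G U P) : P.card ≤ U.card := by
  classical
  refine Finset.card_le_card_of_forall_subsingleton (fun S v => v ∈ S) (fun S hS => ?_)
    (fun v hv => ?_)
  · obtain ⟨x, hx⟩ := (hP.1 S hS).1
    exact ⟨x, (hP.1 S hS).2.1 hx, hx⟩
  · intro S hS T hT
    exact (hP.2 v hv).unique ⟨hS.1, hS.2⟩ ⟨hT.1, hT.2⟩

theorem POS : POS_stmt := by
  intro V _ G U
  have hcard : ∀ P ∈ col G U, P.card ≤ U.card := fun P hP => POS_card G U P ((POS_mem G U P).1 hP)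
  refine ⟨?_, ?_, ?_, ?_, hcard⟩
  · have h1 : (U.image fun v => ({v} : Finset V)) ∈ col G U := (POS_mem G U _).2 (POS_singletons G U)
    have h2 : 0 < (col G U).card := Finset.card_pos.2 ⟨_, h1⟩
    unfold N
    exact_mod_cast h2
  · ext P
    rw [POS_mem, Finset.mem_singleton]
    constructor
    · intro h
      rw [Finset.eq_empty_iff_forall_notMem]
      intro S hS
      obtain ⟨⟨x, hx⟩, hsub, _⟩ := h.1 S hS
      exact absurd (hsub hx) (Finset.notMem_empty x)
    · rintro rfl
      exact ⟨fun S hS => absurd hS (Finset.notMem_empty S), fun v hv => absurd hv (Finset.notMem_empty v)⟩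
  · unfold N N1
    rw [Finset.card_eq_sum_ones]
    push_cast
    refine Finset.sum_le_sum fun P _ => ?_
    have : (0 : ℝ) ≤ (P.card : ℝ) := Nat.cast_nonneg _
    linarith
  · unfold N N1
    calc ∑ P ∈ col G U, ((P.card : ℝ) + 1) ≤ ∑ _P ∈ col G U, ((U.card : ℝ) + 1) := by
          refine Finset.sum_le_sum fun P hP => ?_
          have : (P.card : ℝ) ≤ (U.card : ℝ) := by exact_mod_cast hcard P hP
          linarith
      _ = ((U.card : ℝ) + 1) * ((col G U).card : ℝ) := by
          rw [Finset.sum_const, nsmul_eq_mul]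
          ring

end Pool.Agent.helper34.AC
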