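import Pool.Agent.helper34.AC.Spec4

/-!
# Module STP of project ac: (MP_e0bd72_co)

One step of the absorption argument.
-/

set_option autoImplicit false

open Filter Topology

namespace Pool.Agent.helper34.AC

theorem STP_gb_nonneg (j : ℕ) : 0 ≤ gb j := by
  unfold gb bl
  positivity

theorem STP_Bf_nonneg (hOMF : OMF_stmt) (j : ℕ) : 0 ≤ Bf j := by
  have h1 := (hOMF.1 j).1
  have h2 := STP_gb_nonneg j
  unfold Bf
  positivity

theorem STP_N_nonneg {V : Type} (G : SimpleGraph V) (U : Finset V) : 0 ≤ N G U := by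
  unfold N
  positivity

/-- The numerical part. -/
theorem STP_num (C g w x : ℝ) (hC : 0 < C) (hw : 0 ≤ w) (hx : 0 < x)
    (h8 : (1 + w) ^ 8 ≤ 1 / (220 * (C + 1)) * g) (hxw : |x * w - 1| ≤ 1 / (220 * (C + 1))) :
    0 < g ∧ C * (1 + w) ^ 3 / g ^ 2 ≤ x / (110 * g) := by
  have hC1 : (0 : ℝ) < 220 * (C + 1) := by linarith
  have he : 1 / (220 * (C + 1)) ≤ 1 / 2 := by
    apply one_div_le_one_div_of_le (by norm_num)
    linarith
  have ht1 : (1 : ℝ) ≤ 1 + w := by linarith
  have hg : 220 * (C + 1) * (1 + w) ^ 8 ≤ g := by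
    have h1 := mul_le_mul_of_nonneg_left h8 hC1.le
    have h2 : 220 * (C + 1) * (1 / (220 * (C + 1)) * g) = g := by
      field_simp
    linarith
  have hg0 : 0 < g := by
    have : 0 < 220 * (C + 1) * (1 + w) ^ 8 := by positivity
    linarith
  refine ⟨hg0, ?_⟩
  have hxw2 : 1 / 2 ≤ x * w := by
    have := (abs_le.1 hxw).1
    linarith
  have hx1 : 1 / 2 ≤ x * (1 + w) := by nlinarith
  have h3 : (1 + w) ^ 3 ≤ (1 + w) ^ 7 := pow_le_pow_right₀ ht1 (by norm_num)
  have h4 : 1 / 2 * (1 + w) ^ 3 ≤ x * (1 + w) ^ 8 := by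
    calc 1 / 2 * (1 + w) ^ 3 ≤ x * (1 + w) * (1 + w) ^ 7 :=
          mul_le_mul hx1 h3 (by positivity) (by positivity)
      _ = x * (1 + w) ^ 8 := by ring
  have h5 : 110 * C * (1 + w) ^ 3 ≤ x * g := by
    calc 110 * C * (1 + w) ^ 3 ≤ 220 * (C + 1) * (1 / 2 * (1 + w) ^ 3) := by
          have : 0 ≤ (1 + w) ^ 3 := by positivity
          nlinarith
      _ ≤ 220 * (C + 1) * (x * (1 + w) ^ 8) := mul_le_mul_of_nonneg_left h4 hC1.le
      _ = x * (220 * (C + 1) * (1 + w) ^ 8) := by ring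
      _ ≤ x * g := mul_le_mul_of_nonneg_left hg hx.le
  rw [div_le_div_iff₀ (by positivity) (by positivity)]
  calc C * (1 + w) ^ 3 * (110 * g) = 110 * C * (1 + w) ^ 3 * g := by ring
    _ ≤ x * g * g := mul_le_mul_of_nonneg_right h5 hg0.le
    _ = x * g ^ 2 := by ring

theorem STP (hTWS : TWS_stmt) (hSTR : STR_stmt) (hTAI : TAI_stmt) (hRCN : RCN_stmt)
    (hSIZ : SIZ_stmt) (hBMO : BMO_stmt) (hASY : ASY_stmt) (hOMF : OMF_stmt) : STP_stmt := by
  obtain ⟨MT, hMT⟩ := hTWS
  obtain ⟨C, hC, MS, hMS⟩ := hSTR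
  obtain ⟨MA, hMA⟩ := hTAI
  obtain ⟨MB, hMB⟩ := hBMO
  obtain ⟨ME, hME⟩ := hASY (1 / (220 * (C + 1))) (by positivity)
  refine ⟨max (max MT MS) (max MA (max (2 * MB) ME)), ?_⟩
  intro m hm e he hi V _ G hN U hU hStab
  have hmT : MT ≤ m := by omega
  have hmS : MS ≤ m := by omega
  have hmA : MA ≤ m := by omega
  have hmB : 2 * MB ≤ m := by omega
  have hmE : ME ≤ m := by omega
  obtain ⟨hxw, -, -, h8, -, -, -, hx0⟩ := hME m hmE
  have hw0 : 0 ≤ om m := (hOMF.1 m).1
  obtain ⟨hg0, hnum⟩ := STP_num C (gb m) (om m) (xx m) hC hw0 hx0 h8 hxw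
  set o : ℕ → ℝ := fun j => Bf (max j ((m + 1) / 2)) with ho
  have homono : Monotone o := by
    intro i j hij
    exact hMB _ _ (by omega) (by omega)
  have hoB : ∀ j, m ≤ 2 * j → j ≤ m → o j ≤ Bf j := by
    intro j hj _
    have : max j ((m + 1) / 2) = j := by omega
    simp only [ho, this, le_refl]
  have hom : o m ≤ om m + 1 / gb m := by
    refine (hoB m (by omega) le_rfl).trans ?_
    unfold Bf
    have : 4 / 5 / gb m ≤ 1 / gb m := div_le_div_of_nonneg_right (by norm_num) hg0.le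
    linarith
  have hOm : ∀ v ∈ U, Om G (U.erase v) o := by
    intro v hv U' hU'
    have hc : U'.card ≤ m := by
      have h1 := Finset.card_le_card hU'
      rw [Finset.card_erase_of_mem hv, hU] at h1
      exact h1
    have h1 := hi U'.card hc
    have h2 := hN U' hc
    have h3 : 0 ≤ o U'.card := STP_Bf_nonneg hOMF _
    have h4 : (U'.card : ℝ) * N G U' ≤ o U'.card * (gb U'.card - e U'.card) * N G U' :=
      mul_le_mul_of_nonneg_right h1 (STP_N_nonneg G U')
    have h5 : o U'.card * ((gb U'.card - e U'.card) * N G U') ≤ o U'.card * N1 G U' :=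
      mul_le_mul_of_nonneg_left h2 h3
    calc (U'.card : ℝ) * N G U' ≤ o U'.card * (gb U'.card - e U'.card) * N G U' := h4
      _ = o U'.card * ((gb U'.card - e U'.card) * N G U') := by ring
      _ ≤ o U'.card * N1 G U' := h5
  have hkey : ∃ v ∈ U, ∃ w ∈ U, G.Adj v w ∧
      Mk G {v} (U.erase v) 1 ≤ (om m - 1 / (10 * gb m)) * N G U := by
    have h1 : ∃ x ∈ U, ∃ y ∈ U, G.Adj x y := by
      by_contra hcon
      apply hStab
      intro x hx y hy hxy
      exact hcon ⟨x, hx, y, hy, hxy⟩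
    obtain ⟨v, hv, w, hw, hvw⟩ := h1
    rcases hMT m hmT V G U v w o hU hv hw hvw homono (hOm v hv) (hOm w hw) hoB with h | h
    · exact ⟨v, hv, w, hw, hvw, h⟩
    · exact ⟨w, hw, v, hv, hvw.symm, h⟩
  obtain ⟨v, hv, w, hw, hvw, hM1⟩ := hkey
  have hNU := STP_N_nonneg G U
  refine ⟨v, hv, ?_, ?_, ?_⟩
  · refine hM1.trans (mul_le_mul_of_nonneg_right ?_ hNU)
    have : 0 ≤ 1 / (10 * gb m) := by positivity
    linarith
  · exact hMA m hmA V G U v o hU hv homono (hOm v hv) hom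
  · have hstr := hMS m hmS V G U v o hU hv homono (hOm v hv) hom
    have hrec := (hRCN V G U v hv).2.2
    have hsum : ∑ S ∈ st G {v} (U.erase v), (gb (m - S.card) * N G (U.erase v \ S) -
        e (m - S.card) * N G (U.erase v \ S)) ≤
        ∑ S ∈ st G {v} (U.erase v), N1 G (U.erase v \ S) := by
      refine Finset.sum_le_sum fun S hS => ?_
      have hsz := (hSIZ V G U v w hv hw hvw S hS).2.2
      have hcard : (U.erase v \ S).card = m - S.card := by omega
      have h2 := hN (U.erase v \ S) (by omega)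
      rw [hcard] at h2
      rw [← sub_mul]
      exact h2
    rw [Finset.sum_sub_distrib] at hsum
    have hxM : xx m * Mk G {v} (U.erase v) 1 ≤ xx m * ((om m - 1 / (10 * gb m)) * N G U) :=
      mul_le_mul_of_nonneg_left hM1 hx0.le
    have hCN : C * (1 + om m) ^ 3 / gb m ^ 2 * N G U ≤ xx m / (110 * gb m) * N G U :=
      mul_le_mul_of_nonneg_right hnum hNU
    have hid : (gb (m + 1) + xx m / (11 * gb m)) * N G U =
        N G U + ((gb (m + 1) - 1 + xx m * om m - C * (1 + om m) ^ 3 / gb m ^ 2) * N G U -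
          xx m * ((om m - 1 / (10 * gb m)) * N G U)) +
        (C * (1 + om m) ^ 3 / gb m ^ 2 * N G U - xx m / (110 * gb m) * N G U) := by
      have hg1 : gb m ≠ 0 := hg0.ne'
      field_simp
      ring
    linarith

end Pool.Agent.helper34.AC
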